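import Mathlib
import Pool.Agent.Lib.MP_5544e1_an.Defs
import Pool.Agent.Lib.MP_5544e1_an.Ext
import Pool.Agent.Lib.MP_5544e1_an.Rot

set_option autoImplicit false

namespace Pool.Agent.Results.MP_5544e1_an.RotundStrongGurarii

open Pool.Agent.Lib.Gurarii BoundedContinuousFunction

universe u

/-- There is a closed subspace `X` of the space `ℓ^∞` of bounded real sequences (with its usual
norm) which is a strong Gurarii space and has a rotund renorming. -/
theorem result : ∃ X : Submodule ℝ (ℕ →ᵇ ℝ), IsClosed (X : Set (ℕ →ᵇ ℝ)) ∧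
    IsStrongGurarii.{u} X ∧ HasRotundRenorming X := by
  refine ⟨Xinf, Xinf_closed, ?_, ?_⟩
  · intro T _ _ _ S f
    obtain ⟨g, hg1, hg2, hg3⟩ := ext_all (Module.finrank ℝ T) S (Xinf.subtype ∘ₗ f.toLinearMap)
      (fun s => f.norm_map s) (fun s => (f s).2) (by omega)
    refine ⟨⟨g.codRestrict Xinf hg2, fun t => hg1 t⟩, fun s => ?_⟩
    exact Subtype.ext (hg3 s)
  · refine ⟨NN.comp Xinf.subtype, ⟨1, 3, one_pos, fun x => ?_⟩, fun x y h1 h2 => ?_⟩
    · have h := NN_equiv (x : E)
      rw [one_mul]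
      exact h
    · have h1' : NN ((x : E) + y) = 2 * NN (x : E) := h1
      have h2' : NN ((x : E) + y) = 2 * NN (y : E) := h2
      exact Subtype.ext (NN_rotund h1' (by linarith))

end Pool.Agent.Results.MP_5544e1_an.RotundStrongGurarii
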